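import Mathlib

set_option autoImplicit false

namespace Pool.Agent.H502Z.Mad

/-- The subset of `ℕ` with characteristic function `x`. -/
def supp (x : ℕ → Bool) : Set ℕ := {n | x n = true}

/-- The space of infinite subsets of `ℕ`, as a subspace of Cantor space. -/
abbrev InfSub : Type := {x : ℕ → Bool // (supp x).Infinite}

/-- An almost disjoint family: distinct members have finite intersection. -/
def IsAD (F : Set InfSub) : Prop :=
  ∀ x ∈ F, ∀ y ∈ F, x ≠ y → (supp x.1 ∩ supp y.1).Finite

/-- A mad family: infinite, almost disjoint, and not properly contained in an almost disjoint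
family. -/
def IsMad (F : Set InfSub) : Prop :=
  F.Infinite ∧ IsAD F ∧ ∀ G : Set InfSub, IsAD G → F ⊆ G → G = F

/-- The least size of a collection of Borel almost disjoint families whose union is mad. -/
noncomputable def aBorel : Cardinal.{0} :=
  sInf {κ | ∃ 𝒜 : Set (Set InfSub), Cardinal.mk 𝒜 = κ ∧
    (∀ A ∈ 𝒜, @MeasurableSet InfSub (borel InfSub) A ∧ IsAD A) ∧ IsMad (⋃₀ 𝒜)}

/-- Almost inclusion: `x \ y` is finite. -/
def SubStar (x y : InfSub) : Prop := (supp x.1 \ supp y.1).Finite

/-- `D` is dense for almost inclusion. -/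
def IsDenseStar (D : Set InfSub) : Prop := ∀ x : InfSub, ∃ y ∈ D, SubStar y x

/-- `D` is open (downward closed) for almost inclusion. -/
def IsOpenStar (D : Set InfSub) : Prop := ∀ y ∈ D, ∀ z : InfSub, SubStar z y → z ∈ D

/-- The distributivity number: the least size of a collection of dense open families whose
intersection is not dense. -/
noncomputable def distrib : Cardinal.{0} :=
  sInf {κ | ∃ 𝒟 : Set (Set InfSub), Cardinal.mk 𝒟 = κ ∧
    (∀ D ∈ 𝒟, IsDenseStar D ∧ IsOpenStar D) ∧ ¬ IsDenseStar (⋂₀ 𝒟)}

end Pool.Agent.H502Z.Mad
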