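import Pool.Agent.H502Z.Mad.Defs

set_option autoImplicit false

namespace Pool.Agent.H502Z.Mad

open Set Filter

/-- infinite Ramsey theorem for pairs -/
theorem ramsey (r : ℕ → ℕ → Prop) {W : Set ℕ} (hW : W.Infinite) :
    ∃ V : Set ℕ, V ⊆ W ∧ V.Infinite ∧
      ((∀ l ∈ V, ∀ m ∈ V, l < m → r l m) ∨ (∀ l ∈ V, ∀ m ∈ V, l < m → ¬ r l m)) := by
  have hne : (cofinite ⊓ 𝓟 W).NeBot := cofinite_inf_principal_neBot_iff.2 hW
  let U : Ultrafilter ℕ := Ultrafilter.of (cofinite ⊓ 𝓟 W)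
  have hU : (U : Filter ℕ) ≤ cofinite ⊓ 𝓟 W := Ultrafilter.of_le _
  have hWU : W ∈ U := hU (mem_inf_of_right (mem_principal_self W))
  have hgt : ∀ l : ℕ, {m | l < m} ∈ U := fun l => hU (mem_inf_of_left (by
    rw [Nat.cofinite_eq_atTop]
    exact eventually_gt_atTop l))
  have key : ∀ s : ℕ → ℕ → Prop, {l | {m | s l m} ∈ U} ∈ U →
      ∃ V : Set ℕ, V ⊆ W ∧ V.Infinite ∧ ∀ l ∈ V, ∀ m ∈ V, l < m → s l m := by
    intro s hs
    have step : ∀ n : ℕ, ∃ m, n < m ∧ m ∈ W ∧ {k | s m k} ∈ U ∧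
        ∀ l ≤ n, {k | s l k} ∈ U → s l m := by
      intro n
      have h1 : ∀ᶠ m in (U : Filter ℕ), ∀ l ∈ Finset.range (n + 1), {k | s l k} ∈ U → s l m := by
        rw [Filter.eventually_all_finset]
        intro l _
        by_cases h : {k | s l k} ∈ U
        · exact Filter.mem_of_superset h fun m hm _ => hm
        · exact Filter.Eventually.of_forall fun m hm => absurd hm h
      obtain ⟨m, h2, h3, h4, h5⟩ :=
        ((show ∀ᶠ m in (U : Filter ℕ), n < m from hgt n).and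
          ((show ∀ᶠ m in (U : Filter ℕ), m ∈ W from hWU).and
            ((show ∀ᶠ m in (U : Filter ℕ), {k | s m k} ∈ U from hs).and h1))).exists
      exact ⟨m, h2, h3, h4, fun l hl => h5 l (Finset.mem_range.2 (by omega))⟩
    choose f h1 h2 h3 h4 using step
    let a : ℕ → ℕ := fun n => f^[n + 1] 0
    have ha : ∀ n, a (n + 1) = f (a n) := fun n => Function.iterate_succ_apply' f (n + 1) 0
    have ha' : ∀ n, ∃ k, a n = f k := fun n => ⟨_, Function.iterate_succ_apply' f n 0⟩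
    have hmono : StrictMono a := strictMono_nat_of_lt_succ fun n => by rw [ha]; exact h1 _
    refine ⟨range a, ?_, infinite_range_of_injective hmono.injective, ?_⟩
    · rintro _ ⟨n, rfl⟩
      obtain ⟨k, hk⟩ := ha' n
      rw [hk]
      exact h2 k
    · rintro _ ⟨i, rfl⟩ _ ⟨j, rfl⟩ hij
      have hij' : i < j := hmono.lt_iff_lt.1 hij
      obtain ⟨j, rfl⟩ : ∃ k, j = k + 1 := ⟨j - 1, by omega⟩
      rw [ha]
      refine h4 _ _ (hmono.monotone (by omega)) ?_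
      obtain ⟨k, hk⟩ := ha' i
      rw [hk]
      exact h3 k
  rcases U.mem_or_compl_mem {l | {m | r l m} ∈ U} with h | h
  · obtain ⟨V, h1, h2, h3⟩ := key r h
    exact ⟨V, h1, h2, Or.inl h3⟩
  · obtain ⟨V, h1, h2, h3⟩ := key (fun l m => ¬ r l m)
      (Filter.mem_of_superset h fun l hl => Ultrafilter.compl_mem_iff_notMem.2 hl)
    exact ⟨V, h1, h2, Or.inr h3⟩

theorem star_trans {x y z : Set ℕ} (h1 : (x \ y).Finite) (h2 : (y \ z).Finite) :
    (x \ z).Finite :=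
  (h1.union h2).subset fun n hn => by
    by_cases h : n ∈ y
    · exact Or.inr ⟨h, hn.2⟩
    · exact Or.inl ⟨hn.1, h⟩

theorem star_of_subset {x y : Set ℕ} (h : x ⊆ y) : (x \ y).Finite := by
  rw [sdiff_eq_empty.2 h]
  exact finite_empty

/-- countably many dense open families have a dense intersection -/
theorem fusion {ι : Type} [Countable ι] [Nonempty ι] (D : ι → Set ℕ → Prop)
    (hd : ∀ i X, X.Infinite → ∃ Y, Y.Infinite ∧ (Y \ X).Finite ∧ D i Y)
    (ho : ∀ i Y Z, D i Y → Z.Infinite → (Z \ Y).Finite → D i Z) {X : Set ℕ} (hX : X.Infinite) :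
    ∃ W, W.Infinite ∧ (W \ X).Finite ∧ ∀ i, D i W := by
  obtain ⟨e, he⟩ := exists_surjective_nat ι
  have hd' : ∀ (n : ℕ) (X : {X : Set ℕ // X.Infinite}),
      ∃ Y : {X : Set ℕ // X.Infinite}, Y.1 ⊆ X.1 ∧ D (e n) Y.1 := by
    intro n X
    obtain ⟨Y, h1, h2, h3⟩ := hd (e n) X.1 X.2
    have h4 : (Y ∩ X.1).Infinite := by
      intro h
      exact h1 ((h.union h2).subset fun k hk => by
        by_cases h' : k ∈ X.1
        · exact Or.inl ⟨hk, h'⟩
        · exact Or.inr ⟨hk, h'⟩)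
    exact ⟨⟨Y ∩ X.1, h4⟩, inter_subset_right, ho _ _ _ h3 h4 (star_of_subset inter_subset_left)⟩
  choose F hF1 hF2 using hd'
  let S : ℕ → {X : Set ℕ // X.Infinite} := fun n => Nat.rec ⟨X, hX⟩ (fun n Y => F n Y) n
  have hS : ∀ n, S (n + 1) = F n (S n) := fun n => rfl
  have hanti : Antitone fun n => (S n).1 := antitone_nat_of_succ_le fun n => hF1 n (S n)
  have hex : ∀ n : ℕ, ∃ m ∈ (S n).1, n < m := fun n => (S n).2.exists_gt n
  choose a ha1 ha2 using hex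
  have hinf : (range a).Infinite := by
    refine infinite_of_not_bddAbove ?_
    rintro ⟨b, hb⟩
    have := hb ⟨b, rfl⟩
    have := ha2 b
    omega
  have hstar : ∀ n, (range a \ (S n).1).Finite := fun n =>
    ((finite_lt_nat n).image a).subset (by
      rintro _ ⟨⟨k, rfl⟩, hk⟩
      refine ⟨k, ?_, rfl⟩
      by_contra h
      exact hk (hanti (not_lt.1 h) (ha1 k)))
  refine ⟨range a, hinf, hstar 0, fun i => ?_⟩
  obtain ⟨n, rfl⟩ := he i
  exact ho _ _ _ (hF2 n (S n)) hinf (hstar (n + 1))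

/-- the next element of `z` after `l` -/
noncomputable def nxt (z : Set ℕ) (l : ℕ) : ℕ := sInf {k | k ∈ z ∧ l < k}

theorem nxt_spec {z : Set ℕ} (hz : z.Infinite) (l : ℕ) : nxt z l ∈ z ∧ l < nxt z l :=
  Nat.sInf_mem (s := {k | k ∈ z ∧ l < k}) (hz.exists_gt l)

/-- the set coded by consecutive pairs of `z` -/
def hat (c : ℕ → ℕ → ℕ) (z : Set ℕ) : Set ℕ := (fun l => c l (nxt z l)) '' z

theorem hat_finite (c : ℕ → ℕ → ℕ) {z V y : Set ℕ} (hz : z.Infinite) (hzV : (z \ V).Finite)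
    (h : ∀ l ∈ V, ∀ m ∈ V, l < m → c l m ∉ y) : (hat c z ∩ y).Finite := by
  obtain ⟨N, hN⟩ := hzV.bddAbove
  refine ((finite_le_nat N).image fun l => c l (nxt z l)).subset ?_
  rintro _ ⟨⟨l, hl, rfl⟩, hy⟩
  refine ⟨l, ?_, rfl⟩
  by_contra hlN
  have hlN' : N < l := not_le.1 hlN
  obtain ⟨h1, h2⟩ := nxt_spec hz l
  have hV : ∀ k ∈ z, N < k → k ∈ V := fun k hk hk' => by
    by_contra h'
    exact absurd (hN ⟨hk, h'⟩) (not_le.2 hk')
  exact h l (hV l hl hlN') _ (hV _ h1 (hlN'.trans h2)) h2 hy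

theorem cont_coord {g : (ℕ → ℕ) → ℕ → Bool} (hg : Continuous g) (x : ℕ → ℕ) (k : ℕ) :
    ∃ n, ∀ x' ∈ PiNat.cylinder x n, g x' k = g x k := by
  have h : IsOpen {x' | g x' k = g x k} :=
    (isOpen_discrete {g x k}).preimage ((continuous_apply k).comp hg)
  obtain ⟨_, ⟨y, n, rfl⟩, h1, h2⟩ :=
    (PiNat.isTopologicalBasis_cylinders (fun _ : ℕ => ℕ)).exists_subset_of_mem_open
      (show x ∈ {x' | g x' k = g x k} from rfl) h
  refine ⟨n, fun x' hx' => h2 ?_⟩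
  rwa [PiNat.mem_cylinder_iff_eq.1 h1] at hx'

/-- two distinct branches have neighbourhoods with almost disjoint traces -/
theorem separate {g : (ℕ → ℕ) → ℕ → Bool} (hg : Continuous g)
    (had : ∀ x x', g x ≠ g x' → (supp (g x) ∩ supp (g x')).Finite) {P : Set (ℕ → ℕ)}
    {x₀ x₁ : ℕ → ℕ} (h₀ : x₀ ∈ P) (h₁ : x₁ ∈ P) (hne : g x₀ ≠ g x₁) :
    ∃ u₀ ∈ P, ∃ u₁ ∈ P, ∃ n, ((⋃ x ∈ P ∩ PiNat.cylinder u₀ n, supp (g x)) ∩
      (⋃ x ∈ P ∩ PiNat.cylinder u₁ n, supp (g x))).Finite := by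
  by_contra hcon
  push Not at hcon
  have step : ∀ (j : ℕ) (t : P × P × ℕ), ∃ t' : P × P × ℕ, t.2.2 < t'.2.2 ∧
      t'.1.1 ∈ PiNat.cylinder t.1.1 t.2.2 ∧ t'.2.1.1 ∈ PiNat.cylinder t.2.1.1 t.2.2 ∧
      ∃ k, j < k ∧ (∀ x ∈ PiNat.cylinder t'.1.1 t'.2.2, k ∈ supp (g x)) ∧
        ∀ x ∈ PiNat.cylinder t'.2.1.1 t'.2.2, k ∈ supp (g x) := by
    rintro j ⟨⟨u₀, hu₀⟩, ⟨u₁, hu₁⟩, n⟩
    obtain ⟨k, ⟨hk₀, hk₁⟩, hjk⟩ := (hcon u₀ hu₀ u₁ hu₁ n).exists_gt j
    simp only [mem_iUnion, exists_prop] at hk₀ hk₁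
    obtain ⟨v₀, ⟨hv₀, hv₀'⟩, hk₀⟩ := hk₀
    obtain ⟨v₁, ⟨hv₁, hv₁'⟩, hk₁⟩ := hk₁
    obtain ⟨n₀, hn₀⟩ := cont_coord hg v₀ k
    obtain ⟨n₁, hn₁⟩ := cont_coord hg v₁ k
    refine ⟨(⟨v₀, hv₀⟩, ⟨v₁, hv₁⟩, n + n₀ + n₁ + 1), by simp only; omega, hv₀', hv₁', k, hjk,
      fun x hx => ?_, fun x hx => ?_⟩
    · exact (hn₀ x (PiNat.cylinder_anti _ (by simp only; omega) hx)).trans hk₀
    · exact (hn₁ x (PiNat.cylinder_anti _ (by simp only; omega) hx)).trans hk₁
  choose F hF1 hF2 hF3 hF4 using step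
  obtain ⟨k₀, hk₀⟩ := Function.ne_iff.1 hne
  obtain ⟨n₀, hn₀⟩ := cont_coord hg x₀ k₀
  obtain ⟨n₁, hn₁⟩ := cont_coord hg x₁ k₀
  let S : ℕ → P × P × ℕ := fun j =>
    Nat.rec (⟨x₀, h₀⟩, ⟨x₁, h₁⟩, n₀ + n₁) (fun j t => F j t) j
  have hS : ∀ j, S (j + 1) = F j (S j) := fun j => rfl
  have hmono : StrictMono fun j => (S j).2.2 := strictMono_nat_of_lt_succ fun j => hF1 j (S j)
  have lim : ∀ u : ℕ → ℕ → ℕ, (∀ j, u (j + 1) ∈ PiNat.cylinder (u j) (S j).2.2) →
      ∃ v, ∀ j, v ∈ PiNat.cylinder (u j) (S j).2.2 := by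
    intro u hu
    have h1 : ∀ j i, j ≤ i → u i ∈ PiNat.cylinder (u j) (S j).2.2 := by
      intro j i hji
      induction i, hji using Nat.le_induction with
      | base => exact PiNat.self_mem_cylinder _ _
      | succ i hji ih =>
        intro m hm
        rw [hu i m (hm.trans_le (hmono.monotone hji)), ih m hm]
    refine ⟨fun m => u (m + 1) m, fun j m hm => ?_⟩
    have h2 : m < (S (m + 1)).2.2 := lt_of_lt_of_le (Nat.lt_succ_self m) (hmono.id_le (m + 1))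
    rcases le_total j (m + 1) with h | h
    · exact h1 j (m + 1) h m hm
    · exact (h1 (m + 1) j h m h2).symm
  obtain ⟨v₀, hv₀⟩ := lim (fun j => (S j).1.1) fun j => hF2 j (S j)
  obtain ⟨v₁, hv₁⟩ := lim (fun j => (S j).2.1.1) fun j => hF3 j (S j)
  have hne' : g v₀ ≠ g v₁ := by
    intro h
    apply hk₀
    rw [← hn₀ v₀ (PiNat.cylinder_anti _ (Nat.le_add_right _ _) (hv₀ 0)),
      ← hn₁ v₁ (PiNat.cylinder_anti _ (Nat.le_add_left _ _) (hv₁ 0)), h]
  obtain ⟨N, hN⟩ := (had v₀ v₁ hne').bddAbove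
  obtain ⟨k, hk1, hk2, hk3⟩ := hF4 N (S N)
  exact absurd (hN ⟨hk2 v₀ (hv₀ (N + 1)), hk3 v₁ (hv₁ (N + 1))⟩) (not_le.2 hk1)

/-- The core: below every infinite set there is one all of whose codes avoid the analytic
almost disjoint family `range g`. -/
theorem core (c : ℕ → ℕ → ℕ) {g : (ℕ → ℕ) → ℕ → Bool} (hg : Continuous g)
    (had : ∀ x x', g x ≠ g x' → (supp (g x) ∩ supp (g x')).Finite)
    (hc : ∀ x (V : Set ℕ), V.Infinite → ¬ ∀ l ∈ V, ∀ m ∈ V, l < m → c l m ∈ supp (g x))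
    {X : Set ℕ} (hX : X.Infinite) :
    ∃ W, W.Infinite ∧ (W \ X).Finite ∧
      ∀ z : Set ℕ, z.Infinite → (z \ W).Finite → ∀ x, (hat c z ∩ supp (g x)).Finite := by
  let G : Set ℕ → Set (ℕ → ℕ) → Prop := fun W U =>
    ∃ z : Set ℕ, z.Infinite ∧ (z \ W).Finite ∧ ∃ x ∈ U, (hat c z ∩ supp (g x)).Infinite
  obtain ⟨W, hW, hWX, hD⟩ := fusion (ι := List ℕ)
    (fun t W => ¬ G W {x | PiNat.res x t.length = t} ∨
      ∀ V : Set ℕ, V.Infinite → (V \ W).Finite → G V {x | PiNat.res x t.length = t})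
    (fun t X hX => by
      by_cases h : ∀ V : Set ℕ, V.Infinite → (V \ X).Finite → G V {x | PiNat.res x t.length = t}
      · exact ⟨X, hX, by simp, Or.inr h⟩
      · push Not at h
        obtain ⟨V, h1, h2, h3⟩ := h
        exact ⟨V, h1, h2, Or.inl h3⟩)
    (fun t Y Z hY _ hZY => by
      rcases hY with h | h
      · exact Or.inl fun ⟨z, h1, h2, h3⟩ => h ⟨z, h1, star_trans h2 hZY, h3⟩
      · exact Or.inr fun V h1 h2 => h V h1 (star_trans h2 hZY)) hX
  refine ⟨W, hW, hWX, fun z₀ hz₀ hz₀W x₀ => ?_⟩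
  by_contra hcon
  let P : Set (ℕ → ℕ) := {x | ∀ n, G W (PiNat.cylinder x n)}
  have hP : ∀ z : Set ℕ, z.Infinite → (z \ W).Finite → ∀ x,
      (hat c z ∩ supp (g x)).Infinite → x ∈ P :=
    fun z h1 h2 x h3 n => ⟨z, h1, h2, x, PiNat.self_mem_cylinder _ _, h3⟩
  have hb : ∀ u ∈ P, ∀ n, ∀ V : Set ℕ, V.Infinite → V ⊆ W →
      ∃ x ∈ P ∩ PiNat.cylinder u n, ∃ z : Set ℕ, z.Infinite ∧ (z \ V).Finite ∧
        (hat c z ∩ supp (g x)).Infinite := by
    intro u hu n V hV hVW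
    have h := hD (PiNat.res u n)
    rw [PiNat.res_length, ← PiNat.cylinder_eq_res] at h
    obtain ⟨z, h1, h2, x, h3, h4⟩ := (h.resolve_left fun h' => h' (hu n)) V hV (star_of_subset hVW)
    exact ⟨x, ⟨hP z h1 (star_trans h2 (star_of_subset hVW)) x h4, h3⟩, z, h1, h2, h4⟩
  have hx₀ : x₀ ∈ P := hP z₀ hz₀ hz₀W x₀ hcon
  by_cases hall : ∀ x ∈ P, g x₀ = g x
  · obtain ⟨V, h1, h2, h3⟩ := ramsey (fun l m => c l m ∈ supp (g x₀)) hW
    obtain ⟨x, hx, z, h4, h5, h6⟩ := hb x₀ hx₀ 0 V h2 h1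
    rw [← hall x hx.1] at h6
    exact h6 (hat_finite c h4 h5 (h3.resolve_left (hc x₀ V h2)))
  · push Not at hall
    obtain ⟨x₁, hx₁, hne⟩ := hall
    obtain ⟨u₀, hu₀, u₁, hu₁, n, hfin⟩ := separate hg had hx₀ hx₁ hne
    obtain ⟨V, h1, h2, h3 | h3⟩ :=
      ramsey (fun l m => c l m ∈ ⋃ x ∈ P ∩ PiNat.cylinder u₀ n, supp (g x)) hW
    · obtain ⟨x, hx, z, h4, h5, h6⟩ := hb u₁ hu₁ n V h2 h1
      have h7 := hat_finite c (y := (⋃ x ∈ P ∩ PiNat.cylinder u₀ n, supp (g x))ᶜ) h4 h5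
        fun l hl m hm hlm h => h (h3 l hl m hm hlm)
      refine h6 ((h7.union hfin).subset fun k hk => ?_)
      by_cases h : k ∈ ⋃ x ∈ P ∩ PiNat.cylinder u₀ n, supp (g x)
      · exact Or.inr ⟨h, mem_biUnion hx hk.2⟩
      · exact Or.inl ⟨hk.1, h⟩
    · obtain ⟨x, hx, z, h4, h5, h6⟩ := hb u₀ hu₀ n V h2 h1
      exact h6 ((hat_finite c h4 h5 h3).subset fun k hk => ⟨hk.1, mem_biUnion hx hk.2⟩)

/-- a coding of pairs adapted to an infinite almost disjoint family -/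
theorem exists_code {M : Set InfSub} (hM : M.Infinite) (had : IsAD M) :
    ∃ c : ℕ → ℕ → ℕ, (∀ z : Set ℕ, z.Infinite → (hat c z).Infinite) ∧
      ∀ y ∈ M, ∀ V : Set ℕ, V.Infinite → ¬ ∀ l ∈ V, ∀ m ∈ V, l < m → c l m ∈ supp y.1 := by
  let a : ℕ ↪ M := hM.natEmbedding M
  have hane : ∀ i j, i ≠ j → (a i).1 ≠ (a j).1 := fun i j h h' =>
    h (a.injective (Subtype.ext h'))
  let B : ℕ → Set ℕ := fun l => supp (a l).1.1 \ ⋃ k ∈ Iio l, supp (a k).1.1
  have hB : ∀ l, (B l).Infinite := by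
    intro l h
    refine (a l).1.2 ((h.union ((finite_Iio l).biUnion fun k hk =>
      had _ (a l).2 _ (a k).2 (hane _ _ (ne_of_gt hk)))).subset fun n hn => ?_)
    by_cases h' : n ∈ ⋃ k ∈ Iio l, supp (a k).1.1
    · obtain ⟨k, hk, h''⟩ := mem_iUnion₂.1 h'
      exact Or.inr (mem_biUnion hk ⟨hn, h''⟩)
    · exact Or.inl ⟨hn, h'⟩
  let c : ℕ → ℕ → ℕ := fun l m => ((hB l).natEmbedding (B l) m).1
  have hcB : ∀ l m, c l m ∈ B l := fun l m => ((hB l).natEmbedding (B l) m).2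
  have hcinj : ∀ l, Function.Injective (c l) := fun l m m' h =>
    ((hB l).natEmbedding (B l)).injective (Subtype.ext h)
  have hdisj : ∀ l l' m m', c l m = c l' m' → l = l' := by
    intro l l' m m' h
    rcases lt_trichotomy l l' with h' | h' | h'
    · exact absurd (mem_iUnion₂.2 ⟨l, h', h ▸ (hcB l m).1⟩) (hcB l' m').2
    · exact h'
    · exact absurd (mem_iUnion₂.2 ⟨l', h', h ▸ (hcB l' m').1⟩) (hcB l m).2
  refine ⟨c, fun z hz => hz.image fun l _ l' _ h => hdisj _ _ _ _ h, fun y hy V hV h => ?_⟩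
  have hy' : ∀ l ∈ V, (a l).1 = y := by
    intro l hl
    by_contra hne
    have h1 : (V \ Iic l).Infinite := hV.sdiff (finite_Iic l)
    refine (h1.image (hcinj l).injOn) ((had _ (a l).2 _ hy hne).subset ?_)
    rintro _ ⟨m, hm, rfl⟩
    exact ⟨(hcB l m).1, h l hl m hm.1 (not_le.1 hm.2)⟩
  obtain ⟨l, hl⟩ := hV.nonempty
  obtain ⟨l', hl', hll'⟩ := hV.exists_gt l
  exact hane l l' hll'.ne ((hy' l hl).trans (hy' l' hl').symm)

open Classical in
/-- the point of the space given by an infinite set -/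
noncomputable def ofSet (z : Set ℕ) (hz : z.Infinite) : InfSub :=
  ⟨fun n => decide (n ∈ z), by simpa [supp] using hz⟩

theorem supp_ofSet (z : Set ℕ) (hz : z.Infinite) : supp (ofSet z hz).1 = z := by
  simp [supp, ofSet]

theorem measurable_inf : MeasurableSet {x : ℕ → Bool | (supp x).Infinite} := by
  have : {x : ℕ → Bool | (supp x).Infinite} = ⋂ n : ℕ, ⋃ m : ℕ, ⋃ _ : n < m, {x | x m = true} := by
    ext x
    simp only [mem_ofPred_eq, mem_iInter, mem_iUnion, exists_prop]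
    constructor
    · intro h n
      obtain ⟨m, h1, h2⟩ := h.exists_gt n
      exact ⟨m, h2, h1⟩
    · intro h
      refine infinite_of_not_bddAbove ?_
      rintro ⟨b, hb⟩
      obtain ⟨m, h1, h2⟩ := h b
      exact absurd (hb h2) (not_le.2 h1)
  rw [this]
  exact MeasurableSet.iInter fun n => MeasurableSet.iUnion fun m => MeasurableSet.iUnion fun _ =>
    (measurableSet_singleton true).preimage (measurable_pi_apply (X := fun _ : ℕ => Bool) m)

theorem analytic_of_borel {A : Set InfSub} (hA : @MeasurableSet InfSub (borel InfSub) A) :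
    MeasureTheory.AnalyticSet (Subtype.val '' A) := by
  have h : MeasurableSet A := by
    rw [BorelSpace.measurable_eq (α := InfSub)]
    exact hA
  have : PolishSpace (ℕ → Bool) :=
    { toSecondCountableTopology := inferInstance, toIsCompletelyMetrizableSpace := inferInstance }
  exact (MeasurableSet.subtype_image measurable_inf h).analyticSet

/-- A mad family which is a union of analytic sets yields as many dense open families with
empty intersection. -/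
theorem distrib_le {𝒜 : Set (Set InfSub)}
    (hA : ∀ A ∈ 𝒜, MeasureTheory.AnalyticSet (Subtype.val '' A)) (hM : IsMad (⋃₀ 𝒜)) :
    distrib ≤ Cardinal.mk 𝒜 := by
  obtain ⟨c, hc1, hc2⟩ := exists_code hM.1 hM.2.1
  let D : Set InfSub → Set InfSub := fun A =>
    {W | ∀ z : Set ℕ, z.Infinite → (z \ supp W.1).Finite → ∀ y ∈ A, (hat c z ∩ supp y.1).Finite}
  refine le_trans (csInf_le' ⟨D '' 𝒜, rfl, ?_, ?_⟩) Cardinal.mk_image_le
  · rintro _ ⟨A, hAm, rfl⟩
    refine ⟨fun X => ?_, fun Y hY Z hZ z h1 h2 => hY z h1 (star_trans h2 hZ)⟩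
    have hA' := hA A hAm
    rw [MeasureTheory.AnalyticSet] at hA'
    rcases hA' with h | ⟨g, hg, hr⟩
    · refine ⟨X, fun z _ _ y hy => ?_, by simp [SubStar]⟩
      exact absurd (mem_image_of_mem Subtype.val hy) (by rw [h]; exact notMem_empty _)
    · have hmem : ∀ x, ∃ y ∈ A, y.1 = g x := fun x => by
        have : g x ∈ Subtype.val '' A := hr ▸ mem_range_self x
        exact this
      obtain ⟨W, h1, h2, h3⟩ := core c hg (fun x x' hne => by
        obtain ⟨y, hy, e⟩ := hmem x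
        obtain ⟨y', hy', e'⟩ := hmem x'
        rw [← e, ← e'] at hne ⊢
        exact hM.2.1 y ⟨A, hAm, hy⟩ y' ⟨A, hAm, hy'⟩ fun h => hne (congrArg _ h))
        (fun x V hV => by
          obtain ⟨y, hy, e⟩ := hmem x
          rw [← e]
          exact hc2 y ⟨A, hAm, hy⟩ V hV) X.2
      refine ⟨ofSet W h1, fun z hz hzW y hy => ?_, by simpa [SubStar, supp_ofSet] using h2⟩
      rw [supp_ofSet] at hzW
      obtain ⟨x, hx⟩ : y.1 ∈ range g := hr ▸ mem_image_of_mem _ hy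
      rw [← hx]
      exact h3 z hz hzW x
  · intro hdense
    obtain ⟨W, hW, -⟩ := hdense (ofSet univ infinite_univ)
    have hfin : ∀ y ∈ ⋃₀ 𝒜, (hat c (supp W.1) ∩ supp y.1).Finite := by
      rintro y ⟨A, hAm, hy⟩
      exact hW _ (mem_image_of_mem D hAm) _ W.2 (by simp) y hy
    let w := ofSet _ (hc1 _ W.2)
    have hw : supp w.1 = hat c (supp W.1) := supp_ofSet _ _
    have had : IsAD (insert w (⋃₀ 𝒜)) := by
      rintro x (rfl | hx) y (rfl | hy) hne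
      · exact absurd rfl hne
      · rw [hw]
        exact hfin y hy
      · rw [hw, inter_comm]
        exact hfin x hx
      · exact hM.2.1 x hx y hy hne
    have hwm : w ∈ ⋃₀ 𝒜 := hM.2.2 _ had (subset_insert _ _) ▸ mem_insert _ _
    have := hfin w hwm
    rw [hw, inter_self] at this
    exact hc1 _ W.2 this

theorem exists_mad : ∃ M, IsMad M := by
  have hinf : ∀ l : ℕ, (range (Nat.pair l)).Infinite := fun l =>
    infinite_range_of_injective fun m m' h => (Nat.pair_eq_pair.1 h).2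
  let a : ℕ → InfSub := fun l => ofSet _ (hinf l)
  have hdis : ∀ l l', l ≠ l' → supp (a l).1 ∩ supp (a l').1 = ∅ := by
    intro l l' h
    simp only [a, supp_ofSet]
    refine eq_empty_of_forall_notMem ?_
    rintro _ ⟨⟨m, rfl⟩, m', h'⟩
    exact h (Nat.pair_eq_pair.1 h').1.symm
  have hinj : Function.Injective a := by
    intro l l' h
    by_contra hne
    have := hdis l l' hne
    rw [h, inter_self] at this
    exact (a l').2 (this ▸ finite_empty)
  obtain ⟨M, h1, h2⟩ := zorn_subset_nonempty {F | IsAD F} (fun C hC hch _ => by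
    refine ⟨⋃₀ C, ?_, fun s hs => subset_sUnion_of_mem hs⟩
    rintro x ⟨s, hs, hx⟩ y ⟨t, ht, hy⟩ hne
    rcases hch.total hs ht with h | h
    · exact hC ht x (h hx) y hy hne
    · exact hC hs x hx y (h hy) hne) (range a) (by
    rintro _ ⟨l, rfl⟩ _ ⟨l', rfl⟩ hne
    rw [hdis l l' fun h => hne (h ▸ rfl)]
    exact finite_empty)
  exact ⟨M, (infinite_range_of_injective hinj).mono h1, h2.1,
    fun G hG hMG => (h2.eq_of_subset hG hMG).symm⟩

theorem main : distrib ≤ aBorel := by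
  refine le_csInf ?_ ?_
  · obtain ⟨M, hM⟩ := exists_mad
    refine ⟨_, (fun x => ({x} : Set InfSub)) '' M, rfl, ?_, ?_⟩
    · rintro _ ⟨x, _, rfl⟩
      refine ⟨?_, fun y hy z hz hne => absurd (hy.trans hz.symm) hne⟩
      rw [← BorelSpace.measurable_eq (α := InfSub)]
      exact measurableSet_singleton x
    · convert hM
      ext x
      simp
  · rintro _ ⟨𝒜, rfl, h1, h2⟩
    exact distrib_le (fun A hA => analytic_of_borel (h1 A hA).1) h2

end Pool.Agent.H502Z.Mad
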